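import Pool.Agent.H500.HC.Defs

set_option autoImplicit false
set_option linter.unusedSectionVars false

/-!
# Project HC: the parts

Every `S_...` below is a self-contained part, with a proof sketch.
-/

namespace Pool.Agent.H500.HC

open NumberField IsDedekindDomain Filter Topology Polynomial
open Pool.Agent.W401.Cheb (dens)
open Pool.Agent.W569.FM (OO GF)
open Pool.Agent.H500.KumI (AffI KJ)

/-! ## Part A: Kummer theory and density -/

/-- PART A1 (group theory, counting).  `AffI ι r` is the group of the transformations `v ↦ x + a v` of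
`𝔽_r ^ ι`.  Proof: as in `Pool.Agent.H500.KumGrp.indep` and `Pool.Agent.H500.KumCnt.ratio_le` (for
`ι = Fin 4` and a special set; adapt these files).  (1) `Φ_i` is surjective (from the hypothesis on
`a = 1` and the one on `a`).  (2) `g ↦ (Φ_i g)_i` is surjective onto the product: this is the proof of
`KumGrp.indep`: take `g0` with the right `a`-components, `w_i = g0⁻¹ g_i` has `a = 1` at `i`; multiply by
elements which are `w_i` at `i` and trivial at `j ≠ i`; these are obtained by commutators with an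
element with `a = 2` at `i` and `a = 1` elsewhere, and powers `e` with `e ≡ 1 mod r_i`, `e ≡ 0 mod r_j`.
(3) So the ratio is `∏_i (number of h ∈ AffI with (h.a = 1 → h.x ∈ B i)) / ((r_i - 1) r_i^{#ι})`, and each
factor is `≤ 1 - 1/(2 (r_i - 1)) ≤ 1 - 1/(2 r_i)`. -/
def S_Ratio : Prop := ∀ (I ι : Type) [Fintype I] [Fintype ι] (r : I → ℕ) [∀ i, Fact (r i).Prime]
  (G : Type) [Group G] (Φ : ∀ i, G →* AffI ι (r i)) (B : ∀ i, Set (ι → ZMod (r i))),
  Function.Injective r → (∀ i, 3 ≤ r i) →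
  (∀ t : (i : I) → (ZMod (r i))ˣ, ∃ g : G, ∀ i, (Φ i g).a = t i) →
  (∀ (i : I) (x : ι → ZMod (r i)), ∃ g : G, (Φ i g).a = 1 ∧ (Φ i g).x = x) →
  (∀ i, 2 * (B i).ncard ≤ (r i) ^ Fintype.card ι) →
  (((QuotientGroup.mk : G → G ⧸ (MonoidHom.pi Φ).ker) ''
    {g | ∀ i, (Φ i g).a = 1 → (Φ i g).x ∈ B i}).ncard : ℝ) /
    (Nat.card (G ⧸ (MonoidHom.pi Φ).ker) : ℝ) ≤ ∏ i, (1 - 1 / (2 * (r i : ℝ)))

/-- PART A2 (density over the number field `F`).  The `b i` are independent modulo `r`-th powers for all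
large primes `r`; `B r` contains at most half of `𝔽_r^ι`.  `P w` implies: for all large `r ∣ q_w - 1`
the vector `x` of the `r`-th power residue symbols of the `b i` at `w` lies in `B r`.  Then `P` has
density zero.  Proof: adapt `Pool.Agent.H500.KumDens` (the theorem `density` there treats `ι = Fin 4` and a
special `B`): choose by `Kum.exists_R`-like divergence a finite set `R` of primes `r > r0`, prime to
`2 disc(F)`, with `∏ (1 - 1/(2r)) < ε`; `KumI.exists_KJ` gives the Kummer data `D r` with `c = b`;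
`KumI.card_ge` (see the line `hex` in its proof) shows that for all `x` there is a `g` with
`chi g = 1`, `kap g = x`; `Kum.chi_surj` the surjectivity of the cyclotomic characters;
`KumI.at_frob` computes `chi`, `kap` at a Frobenius element `σ` of `w`
(`r m + 1 = q_w`: `σ y_i ≡ y_i^{q_w}` modulo the prime `Q` of `σ` gives `b_i^m ≡ z^{kap σ i}`).
Then `S_Ratio` and the Chebotarev bound used in `KumDens`.  For `r ∤ q_w - 1` there is no condition
(`chi σ ≠ 1`, that is `a ≠ 1`). -/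
def S_DensF : Prop := ∀ (F ι : Type) [Field F] [NumberField F] [Fintype ι] (b : ι → 𝓞 F) (r0 : ℕ)
  (B : ∀ r : ℕ, Set (ι → ZMod r)), (∀ i, b i ≠ 0) →
  (∀ r : ℕ, r.Prime → r0 < r → ∀ x : ι → ZMod r, (∃ ε : 𝓞 F, ε ^ r = ∏ i, b i ^ (x i).val) → x = 0) →
  (∀ r : ℕ, r.Prime → r0 < r → 2 * (B r).ncard ≤ r ^ Fintype.card ι) →
  ∀ P : HeightOneSpectrum (𝓞 F) → Prop,
  (∀ w, P w → ∀ r : ℕ, r.Prime → r0 < r → (r : 𝓞 F) ∉ w.asIdeal → (∀ i, b i ∉ w.asIdeal) →
    ∀ m : ℕ, r * m + 1 = Ideal.absNorm w.asIdeal → ∀ Q : Ideal (OO F), Q.IsMaximal →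
    Q.comap (algebraMap (𝓞 F) (OO F)) = w.asIdeal → ∀ z : OO F, IsPrimitiveRoot z r →
    ∀ x : ι → ZMod r, (∀ i, algebraMap (𝓞 F) (OO F) (b i) ^ m - z ^ (x i).val ∈ Q) → x ∈ B r) →
  Tendsto (dens P) atTop (𝓝 0)

/-- PART A3 (Northcott).  Multiplicatively independent elements are independent modulo `r`-th powers
for large `r`.  Proof: let `ε^r = ∏ b_i^{x_i}`, `0 ≤ x_i < r`.  For every complex embedding `φ`,
`|φ ε| ≤ ∏_i max(1, |φ b_i|) ≤ C`, independent of `r`; so `ε` lies in a finite set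
(`NumberField.Embeddings.finite_of_norm_le`).  If there are such relations with `x ≠ 0` for infinitely
many primes `r`, there are two primes `r ≠ r'` with the same `ε`:
`∏ b_i^{x_i r' - x'_i r} = 1`, so `x_i r' = x'_i r`, so `r ∣ x_i`, `x_i = 0`. -/
def S_Indep : Prop := ∀ (F ι : Type) [Field F] [NumberField F] [Fintype ι] (b : ι → 𝓞 F),
  (∀ i, b i ≠ 0) → (∀ n : ι → ℤ, ∏ i, (b i : F) ^ n i = 1 → n = 0) →
  ∃ r0 : ℕ, ∀ r : ℕ, r.Prime → r0 < r → ∀ x : ι → ZMod r,
    (∃ ε : 𝓞 F, ε ^ r = ∏ i, b i ^ (x i).val) → x = 0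

/-- PART A4 (linear algebra, Schwartz-Zippel).  `L v` and `M v s` are integral linear forms in `ι`
variables; the `M v s`, `v ∈ Vs`, are linearly independent and `#Vs > #T`; there are no rational
`c_s` with `L v = ∑_s c_s M v s` for all `v ∈ V`.  Then for large `r` the set of the `x ∈ 𝔽_r^ι`, for which
there are `a_s ∈ 𝔽_r` with `L v (x) = ∑_s a_s M v s (x)` for all `v`, contains at most half of `𝔽_r^ι`.
Proof.  (1) Over `ℚ`: suppose that for all injections `f : T → Vs` and all `v ∈ V`, `v ∉ f(T)`, the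
determinant of the matrix `[[M (f t) s, L (f t)], [M v s, L v]]` of size `#T + 1` vanishes at all
`x ∈ ℚ^ι`.  If `x` is such that `M (f t) s (x)` is invertible then there is `a(x)` with
`L v (x) = ∑ a_s M v s (x)` for `v ∈ f(T)` and all other `v` (`Matrix.det_fromBlocks₁₁`).
 (a) `v ∈ Vs`: choose `f` with `v ∉ f(T)`.  If all `M v s (x) = 0` and `M (f t) s (x)` is invertible then
`L v (x) = 0`; these `x` span the subspace `M v s = 0`, so `L v = ∑_s c_{vs} M v s`
(`mem_span_of_iInf_ker_le_ker`; note that by independence the values `M v s (x)`, `v ∈ Vs`, can be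
prescribed).  (b) `v ≠ v' ∈ Vs`, `s ∈ T`: choose `f` with `v' ∉ f(T)`, `f s = v`, and `x` with rows `f t` equal
to `e_t` and row `v'` equal to `e_s`: `a(x)_s = c_{vs} = c_{v's}`.  So `c_{vs} = c_s` for `v ∈ Vs`.
(c) `v ∉ Vs`: for all `x` with an invertible `M (f t) s (x)` the unique `a(x)` is `c`, so
`L v (x) = ∑ c_s M v s (x)`, and such `x` span `ℚ^ι`.  Contradiction to the hypothesis.
(2) So one of the determinants, a polynomial `D` in the `x_i` with integral coefficients, is not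
zero; for large `r` it is not zero modulo `r`, and the set is contained in the set of its zeros,
which has at most `deg D r^{#ι - 1}` elements (`MvPolynomial.schwartz_zippel_totalDegree`). -/
def S_Bad : Prop := ∀ (ι V T : Type) [Fintype ι] [Fintype V] [Fintype T] (Vs : Finset V)
  (L : V → ι → ℤ) (M : V → T → ι → ℤ), Fintype.card T < Vs.card →
  (∀ n : V → T → ℤ, (∀ v, v ∉ Vs → n v = 0) →
    (∀ i, ∑ v, ∑ s, n v s * M v s i = 0) → n = 0) →
  (¬ ∃ (m : ℤ) (c : T → ℤ), m ≠ 0 ∧ ∀ v i, m * L v i = ∑ s, c s * M v s i) →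
  ∃ r0 : ℕ, ∀ r : ℕ, r.Prime → r0 < r →
    2 * {x : ι → ZMod r | ∃ a : T → ZMod r, ∀ v, ∑ i, (L v i : ZMod r) * x i =
      ∑ s, a s * ∑ i, (M v s i : ZMod r) * x i}.ncard ≤ r ^ Fintype.card ι

/-- PART A5 (density over `E`, elements of `ZBar`).  From `S_DensF`, `S_Indep`, `S_Bad`.
Proof.  Let `F = E(A v : v ∈ V)` inside `QBar` (via `j`).  As in `Pool.Agent.H500.Desc` (`exists_common`,
`norm_ker`, the end of the proof of `descend`; and `MWD.descZ` for the passage to `ZBar`) there is `D > 0`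
with `D 𝓞_F ⊆ 𝓞_E[A v]`; for `lam` in the set, not dividing `D`, `ψ(A v) ∈ ψ(𝓞_E)` shows that the prime
`w = ker ψ` of `F` above `lam` has the same norm as `lam`; so it is enough to show density zero for the
set `P` of the `w` with: there are `a s` with `A v ≡ ∏_s X v s ^ a s mod w` for all `v`.
Let `b` be a maximal multiplicatively independent subfamily of the finite family of the `A v`, `X v s` in
`F`; there are `m > 0` and integral vectors `L v`, `M v s` with `(A v)^m = ∏ b_i^{L v i}`,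
`(X v s)^m = ∏ b_i^{M v s i}` in `F`.  Apply `S_Indep` to `b`, `S_Bad` to `L`, `M` (independence of the `M v s`
for `v ∈ Vs` follows from the one of the `X v s`; `m' L v = ∑ c_s M v s` gives
`(A v)^{m m'} = ∏_s (X v s)^{m c_s}` — take absolute value of the exponent / squares to have `N > 0`),
and `S_DensF` with the `B r` of `S_Bad`: if `b_i^k ≡ z^{x_i}` modulo `Q` (`k r + 1 = q_w`, all `b_i` and all
`A v, X v s` are units modulo `w`) then `(A v)^k ≡ z^{α_v}`, `(X v s)^k ≡ z^{ξ_{vs}}` with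
`m α_v = ∑_i L v i x_i`, `m ξ_{vs} = ∑_i M v s i x_i` in `𝔽_r`, and `α_v = ∑_s a_s ξ_{vs}`. -/
def S_KD : Prop := ∀ (E V T : Type) [Field E] [NumberField E] [Fintype V] [Fintype T]
  (j : E →+* QBar) (Vs : Finset V) (A : V → ZBar) (X : V → T → 𝓞 E), Fintype.card T < Vs.card →
  (∀ v, A v ≠ 0) → (∀ v s, X v s ≠ 0) →
  (∀ n : V → T → ℤ, (∀ v, v ∉ Vs → n v = 0) → ∏ v, ∏ s, (X v s : E) ^ n v s = 1 → n = 0) →
  (¬ ∃ (m : ℕ) (c : T → ℤ), 0 < m ∧ ∀ v, (A v : QBar) ^ m = ∏ s, (j (X v s : E)) ^ c s) →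
  Tendsto (dens fun lam : HeightOneSpectrum (𝓞 E) => ∃ (k : Type) (_ : Field k) (ψ : ZBar →+* k),
    RingHom.ker (ψ.comp (RingOfIntegers.mapRingHom j)) = lam.asIdeal ∧
    ∃ a : T → ℕ, ∀ v, ψ (A v) = ∏ s, ψ (RingOfIntegers.mapRingHom j (X v s)) ^ a s) atTop (𝓝 0)

/-! ## Part B: places of degree one and ray class characters -/

/-- PART B1.  Let `#Hom(K, E) = [K : ℚ]`.  For all places `lam` of `E` of degree one, norm `l > B`:
(1) the primes `lam ∩ σ(K)` of `K` are different for different `σ`, and `l 𝓞_K` is their product: an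
`x` with `σ(x) ∈ lam` for all `σ` is divisible by `l`;
(2) for every `M` prime to `l` and integers `g σ` there is `y ∈ 𝓞_K`, `y ≡ 1 mod M`, totally positive, with
`σ(y) ≡ g σ mod lam`.
Proof.  For `σ ≠ τ` choose `x_{στ} ∈ 𝓞_K` with `σ(x) ≠ τ(x)`; if `B` is large no `lam` with norm `> B`
contains `σ(x_{στ}) - τ(x_{στ})`.  Let `w_σ = {x : σ(x) ∈ lam}`; `𝓞_K / w_σ` embeds in `𝓞_E / lam = 𝔽_l`,
so it is `𝔽_l`, and if `w_σ = w_τ` the two embeddings in `𝔽_l` would be equal (an integer `c ≡ x mod w_σ`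
gives `σ(x) ≡ c ≡ τ(x) mod lam`).  So there are `[K : ℚ]` different primes of norm `l` which divide `l`;
the norm of `(l)` is `l^{[K:ℚ]}`, so `(l)` is their product.  (2): Chinese remainder theorem for the
pairwise coprime ideals `w_σ`, `(M)`; add a large positive integral multiple of `M l` to make `y` totally
positive and nonzero. -/
def S_Crt : Prop := ∀ (K E : Type) [Field K] [NumberField K] [Field E] [NumberField E],
  Fintype.card (K →+* E) = Module.finrank ℚ K → ∃ B : ℕ, ∀ lam : HeightOneSpectrum (𝓞 E),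
  (Ideal.absNorm lam.asIdeal).Prime → B < Ideal.absNorm lam.asIdeal →
  (∀ x : 𝓞 K, (∀ σ : K →+* E, em σ x ∈ lam.asIdeal) →
    ((Ideal.absNorm lam.asIdeal : ℕ) : 𝓞 K) ∣ x) ∧
  ∀ M : ℕ, 0 < M → ¬ Ideal.absNorm lam.asIdeal ∣ M → ∀ g : (K →+* E) → ℤ,
    ∃ y : 𝓞 K, InRay M y ∧ ∀ σ, em σ y - (g σ : 𝓞 E) ∈ lam.asIdeal

/-- PART B2.  The exponents.  From `S_Crt`.
Proof.  Let `l` be the norm of `lam`, `g` an integer which is a primitive root modulo `l`.  By `S_Crt`
(2) with `M = N` there are `y_σ ∈ Ray N` with `σ(y_σ) ≡ g`, `τ(y_σ) ≡ 1` for `τ ≠ σ`.  `y_σ^{l-1} ≡ 1 mod l`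
by `S_Crt` (1), so `χ((y_σ))^{l-1} = 1` (`N`, `l` coprime), and since `φ(g)` is a primitive
`(l-1)`-th root of unity in `k`, `χ((y_σ)) = φ(g)^{a_σ}`.  For `x ∈ Ray N`, `σ(x) ∉ lam` for all `σ`, write
`σ(x) ≡ g^{b_σ}` (`𝓞_E/lam = 𝔽_l`), `e_σ = (l-1) b_σ - b_σ`; then `x ∏ y_σ^{e_σ} ∈ Ray (N l)`, so
`χ((x)) = ∏ χ((y_σ))^{b_σ} = ∏ φ(g)^{a_σ b_σ} = ∏ φ(σ(x))^{a_σ}`. -/
def S_Exp : Prop := ∀ (K E : Type) [Field K] [NumberField K] [Field E] [NumberField E],
  Fintype.card (K →+* E) = Module.finrank ℚ K → ∃ B : ℕ, ∀ lam : HeightOneSpectrum (𝓞 E),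
  (Ideal.absNorm lam.asIdeal).Prime → B < Ideal.absNorm lam.asIdeal →
  ∀ N : ℕ, 0 < N → ¬ Ideal.absNorm lam.asIdeal ∣ N → ∀ (k : Type) [Field k] (φ : 𝓞 E →+* k),
  RingHom.ker φ = lam.asIdeal → ∀ χ : Ideal (𝓞 K) →*₀ k,
  IsRayChar (N * Ideal.absNorm lam.asIdeal) χ → ∃ a : (K →+* E) → ℕ, ∀ x : 𝓞 K, InRay N x →
    (∀ σ, em σ x ∉ lam.asIdeal) → χ (Ideal.span {x}) = ∏ σ, φ (em σ x) ^ a σ

/-- PART B3 (finiteness of the narrow ray class group).  Proof: from
`Pool.Agent.Q92.AR.all_Fin : S_Fin` in `Pool.Graph.R_pool_sql_team_seeded_3997aac3.Q92.AR.All` (or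
`.Q225.AR.Fin`): `(RayD K N).relIndex (Pr K N) ≠ 0`.  The divisors in `RayD K N` are the `prin q`,
`q ∈ Ray K N` (a group); an integral ideal `𝔟` with divisor `prin q`, `q ∈ Ray K N`, is `(q)` with `q`
integral, `InRay N q`.  Take for `h` the index and for `R` integral representatives of the classes
(`𝔞 𝔯⁻¹ = (q)`, `𝔯^h = (w)`, so `𝔞 𝔯^{h-1} = (q w)`). -/
def S_Cls : Prop := ∀ (K : Type) [Field K] [NumberField K] (N : ℕ), 0 < N →
  ∃ (h : ℕ) (R : Finset (Ideal (𝓞 K))), 0 < h ∧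
  (∀ 𝔯 ∈ R, 𝔯 ≠ ⊥ ∧ IsCoprime 𝔯 (Ideal.span {(N : 𝓞 K)})) ∧
  ∀ 𝔞 : Ideal (𝓞 K), 𝔞 ≠ ⊥ → IsCoprime 𝔞 (Ideal.span {(N : 𝓞 K)}) →
    (∃ x : 𝓞 K, InRay N x ∧ 𝔞 ^ h = Ideal.span {x}) ∧
    ∃ 𝔯 ∈ R, ∃ x : 𝓞 K, InRay N x ∧ 𝔞 * 𝔯 ^ (h - 1) = Ideal.span {x}

/-- PART B4 (theorem of Dirichlet for ray classes).  Every class of the `x ≡ x0 mod M`, `x` totally
positive, contains elements which generate primes of degree one of arbitrarily large norm.
Proof: the L-functions of the characters of the finite ray class group `Pr K M / RayD K M`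
(`S_Fin`) have a continuation (`Pool.Agent.Q92.AR.hecke : S_Hecke`), with a simple pole at `1` for the
trivial character and without a zero at `1` for the others (`Pool.Agent.Y772.HG.Tot`, `nv_tot`, or the
proof of `S_Sec` in `Pool.Agent.Q128.AR.Sec3`; or via the Dedekind zeta function argument); so
`∑_{v in the class} q_v^{-s} → ∞` for `s → 1+`; the primes of degree `≥ 2` contribute `O(1)`. -/
def S_Dir : Prop := ∀ (K : Type) [Field K] [NumberField K] (M : ℕ) (x0 : 𝓞 K), 0 < M →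
  IsCoprime (Ideal.span {x0}) (Ideal.span {(M : 𝓞 K)}) → ∀ B : ℕ,
  ∃ (v : HeightOneSpectrum (𝓞 K)) (y : 𝓞 K), v.asIdeal = Ideal.span {y} ∧ (M : 𝓞 K) ∣ y - x0 ∧
    TotPos y ∧ (Ideal.absNorm v.asIdeal).Prime ∧ B < Ideal.absNorm v.asIdeal

/-- PART B5 (independent primes).  From `S_Crt` and Chebotarev.
Proof: choose prime numbers `p_1, …, p_m` not dividing `N`, larger than the `B` of `S_Crt`, different, split
completely in `E` (all primes of `E` above `p_i` have norm `p_i`; e.g. by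
`Pool.Agent.Y800.exists_frob` with `g = 1` and `U` the fixer of the Galois closure of `E`: a Frobenius
element `σ` at a prime `Q` of `ZBar` which acts trivially on `E` gives `x^p ≡ x mod Q ∩ 𝓞_E`), and `v_i` a
prime of `K` above `p_i`.  For `σ : K → E` let `𝔓_{iσ}` be a prime of `E` above `v_i` for the embedding `σ`
(`{x : σ(x) ∈ 𝔓} = v_i`).  By `S_Crt` (2) (distinctness) `τ(x) ∈ 𝔓_{iσ}` for `x ∈ v_i` generating a
power of `v_i` only if `τ = σ`: `x_i` is contained in no other prime of `K`.  So the valuation at `𝔓_{iσ}`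
of `∏ τ(x_j)^{n_{jτ}}` is `n_{iσ}` times a positive number. -/
def S_Split : Prop := ∀ (K E : Type) [Field K] [NumberField K] [Field E] [NumberField E],
  Fintype.card (K →+* E) = Module.finrank ℚ K → ∀ N m : ℕ, 0 < N →
  ∃ v : Fin m → HeightOneSpectrum (𝓞 K), Function.Injective v ∧
  (∀ i, (N : 𝓞 K) ∉ (v i).asIdeal) ∧ ∀ (x : Fin m → 𝓞 K) (h : Fin m → ℕ),
  (∀ i, 0 < h i ∧ (v i).asIdeal ^ h i = Ideal.span {x i}) → ∀ n : Fin m → (K →+* E) → ℤ,
  ∏ i, ∏ σ, ((em σ (x i) : 𝓞 E) : E) ^ n i σ = 1 → n = 0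

/-- PART B6 (norms).  Let `(y)` be a prime of degree one of `E`, `y ≡ 1 mod M` totally positive, of norm
`> B`.  For `σ : K → E` let `v = {x : σ(x) ∈ (y)}`; then `v = (x)` with `x ≡ 1 mod M` totally positive
(`x` is the norm of `y` for `σ`), `σ(x)` is divisible by `y` exactly once, and `τ(x)` is prime to `y` for
`τ ≠ σ`.
Proof.  Make `E` a `K`-algebra by `σ`; `x = N_{E/K}(y)` (`RingOfIntegers.norm`/`Algebra.intNorm`), the
norm of the prime ideal `(y)` of relative degree one is `v` (or: `x ∈ v`, and the absolute norm of `x` is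
the one of `y` (up to sign), that is `p`, which is the norm of `v`; so `(x) = v`).  Congruence: `N(y) - 1` is
divisible by `M` (`y = 1 + M z`: the characteristic polynomial of `M z` at `-1`... or product over the
embeddings in the Galois closure).  Positivity: for `τ0 : K → ℝ` the number `τ0(x)` is the product
of the `φ(y)` over the `φ : E → ℂ` above `τ0`: real ones positive, the others in conjugate pairs.
`y² ∤ σ(x)`: `x` divides `p` (`v` has degree one), and `y² ∤ p` for `p` unramified in `E` (`B` large: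
discriminant).  `τ ≠ σ`: `S_Crt` (2). -/
def S_Nrm : Prop := ∀ (K E : Type) [Field K] [NumberField K] [Field E] [NumberField E],
  Fintype.card (K →+* E) = Module.finrank ℚ K → ∃ B : ℕ, ∀ (lam : HeightOneSpectrum (𝓞 E)) (y : 𝓞 E)
  (M : ℕ), lam.asIdeal = Ideal.span {y} → (Ideal.absNorm lam.asIdeal).Prime →
  B < Ideal.absNorm lam.asIdeal → 0 < M → InRay M y → ∀ σ : K →+* E,
  ∃ (v : HeightOneSpectrum (𝓞 K)) (x : 𝓞 K), v.asIdeal = Ideal.span {x} ∧ InRay M x ∧
    Ideal.absNorm v.asIdeal = Ideal.absNorm lam.asIdeal ∧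
    em σ x ∈ lam.asIdeal ∧ em σ x ∉ lam.asIdeal ^ 2 ∧ ∀ τ, τ ≠ σ → em τ x ∉ lam.asIdeal

/-! ## Part C: Hecke characters -/

/-- PART C1 (existence of Hecke characters of given type).  `f` is a multiplicative function on `𝓞_K`
with values in `ZBar`, `f u = 1` for the units `u` in the ray modulo `N`.  Then there is a function `ψ` on
the ideals, multiplicative, zero exactly at the ideals not prime to `N`, with `ψ((x)) = f(x)` for `x` in
the ray modulo `N`.
Proof: `f` extends to a homomorphism `Kˣ → QBarˣ`; on the group `P` of the divisors `prin x`, `x ∈ Kˣ` in the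
ray (`Pool.Agent.Q92.AR.RayD K N`) `prin x ↦ f(x)` is well defined; `QBarˣ` is divisible, so it
extends to the group `Pr K N` of divisors prime to `N` (`AddCommGrpCat` injective objects, or Zorn /
finite index: `RayD` has finite index in `Pr`, extend one cyclic step at a time).  For an ideal `𝔞` prime
to `N`, `𝔞^h = (x)` with `x` integral in the ray (`S_Cls`), so `ψ(𝔞)^h = f(x)` is an algebraic integer, and
so is `ψ(𝔞)`. -/
def S_Ext : Prop := ∀ (K : Type) [Field K] [NumberField K] (N : ℕ) (f : 𝓞 K → ZBar), 0 < N →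
  (∀ x y, f (x * y) = f x * f y) → (∀ x, x ≠ 0 → f x ≠ 0) →
  (∀ u : 𝓞 K, IsUnit u → InRay N u → f u = 1) →
  ∃ ψ : Ideal (𝓞 K) →*₀ ZBar,
    (∀ 𝔞 : Ideal (𝓞 K), 𝔞 ≠ ⊥ → (ψ 𝔞 ≠ 0 ↔ IsCoprime 𝔞 (Ideal.span {(N : 𝓞 K)}))) ∧
    ∀ x : 𝓞 K, InRay N x → ψ (Ideal.span {x}) = f x

/-- PART C2 (characters are determined by the multisets of their values).  Proof: `∑ f_i = ∑ g_i` as
functions (coefficient of `X^{n-1}`); by the linear independence of homomorphisms
(`linearIndependent_monoidHom`) every homomorphism occurs in both families with multiplicities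
which are equal in `k`, so equal (they are at most `n`, and `n < p` if `k` has characteristic
`p > 0`). -/
def S_Chars : Prop := ∀ (G k : Type) [CommGroup G] [Field k] (n : ℕ) (f g : Fin n → (G →* k)),
  (∀ p : ℕ, p.Prime → (p : k) = 0 → n < p) →
  (∀ x, ∏ i, (X - Polynomial.C (f i x)) = ∏ i, (X - Polynomial.C (g i x))) →
  ∃ π : Equiv.Perm (Fin n), ∀ i, f i = g (π i)

/-- PART C3 (roots of unity close to `1`).  Proof: a root of unity `z ≠ 1` in `E`: `z - 1 ≠ 0` is divisible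
by `N^e` only for finitely many `e` (norm), and there are finitely many roots of unity in `E`. -/
def S_Rou : Prop := ∀ (E : Type) [Field E] [NumberField E] (N : ℕ), 2 ≤ N → ∃ e : ℕ, 0 < e ∧
  ∀ (z : 𝓞 E) (m : ℕ), 0 < m → z ^ m = 1 → ((N ^ e : ℕ) : 𝓞 E) ∣ z - 1 → z = 1

/-- PART C4 (places of degree at least two).  They have density zero.  Proof: the number of the `lam`
with norm `≤ x` and degree `≥ 2` is `≤ [E : ℚ] √x`, and `π(x) ≥ c x / log x`; look for an existing
lemma (`Pool.Agent.W401.Cheb`, `W352.ChAbs`, `Pool.Agent.H500.Desc`, `H921R2.TatePole`). -/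
def S_Deg : Prop := ∀ (E : Type) [Field E] [NumberField E],
  Tendsto (dens fun lam : HeightOneSpectrum (𝓞 E) => ¬ (Ideal.absNorm lam.asIdeal).Prime) atTop (𝓝 0)

/-! ## Part D: L-functions -/

/-- PART D1 (algebraic representations of the diagonal torus).  `r` is an algebraic representation of
`GL_n` (entries polynomials in the entries of `g` over a power of `det g`).  There are weights
`k_j ∈ ℤ^n` with `det(1 - x r(diag a)) = ∏_j (1 - x ∏_i a_i^{k_{ji}})`.
Proof: on the torus the entries of `r(diag a)` are Laurent polynomials: `r(diag a) = ∑_κ a^κ B_κ` (finite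
sum over `κ ∈ ℤ^n`), multiplicativity gives (comparison of coefficients in two sets of variables)
`B_κ B_μ = δ_{κμ} B_κ`, and `∑ B_κ = 1`: compare `Pool.Agent.H500.MLB.exists_wts` (one variable).  So `ℂ^m` is
the direct sum of the ranges of the `B_κ`, `r(diag a)` is multiplication by `a^κ` on the range of `B_κ`, and
the `k_j` are the `κ` repeated `rank B_κ` times. -/
def S_Tor : Prop := ∀ (n m : ℕ) (r : GL (Fin n) ℂ →* GL (Fin m) ℂ),
  (∀ a b : Fin m, ∃ (f : MvPolynomial (Fin n × Fin n) ℂ) (k : ℕ), ∀ g : GL (Fin n) ℂ,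
    (r g : Matrix (Fin m) (Fin m) ℂ) a b =
      MvPolynomial.eval (fun ij => (g : Matrix (Fin n) (Fin n) ℂ) ij.1 ij.2) f /
        (g : Matrix (Fin n) (Fin n) ℂ).det ^ k) →
  ∃ k : Fin m → Fin n → ℤ, ∀ (D : GL (Fin n) ℂ) (a : Fin n → ℂ),
    (D : Matrix (Fin n) (Fin n) ℂ) = Matrix.diagonal a → ∀ x : ℂ,
    (1 - x • (r D : Matrix (Fin m) (Fin m) ℂ)).det = ∏ j, (1 - x * ∏ i, a i ^ k j i)

/-- PART D2 (purity and L-functions of algebraic Hecke characters).  `ψ : ideals → ℂ`, zero exactly at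
the ideals not prime to `N`, `ψ((x)) = ∏_φ φ(x)^{t_φ}` for `x` in the ray modulo `N`, `t_φ ∈ ℤ`.  Then the Euler
product `∏_v (1 - ψ(v) q_v^{-s})⁻¹` has a meromorphic continuation.
Proof.  (1) Purity: `∏_φ |φ(u)|^{t_φ} = 1` for the units `u` in the ray (a subgroup of finite index of the
units), so by the unit theorem (`NumberField.Units.dirichletUnitTheorem`, the logarithmic lattice
spans the hyperplane) `t_φ + t_{conj φ}` is a constant `w`; so `|ψ((x))| = |N(x)|^{w/2}`, and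
`|ψ(𝔞)| = N(𝔞)^{w/2}` since `𝔞^h = (x)` (`S_Cls`).  (2) `ψ(𝔞) N(𝔞)^{-w/2}` is a unitary Hecke
character of infinity type `t` in the sense of `Pool.Agent.H511.Cm` (`IsHeckeChar`, see
`Pool/Agent/Results/MP_148101_nt/PotentiallyCMMotives.lean` in the live repository and the modules
`Pool.Agent.H511.Cm.Hk`, `Hol`), whose L-function has a meromorphic continuation to `ℂ`. -/
def S_HeckeL : Prop := ∀ (K : Type) [Field K] [NumberField K] (N : ℕ) (t : (K →+* ℂ) → ℤ)
  (ψ : Ideal (𝓞 K) →*₀ ℂ), 0 < N →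
  (∀ 𝔞 : Ideal (𝓞 K), 𝔞 ≠ ⊥ → (ψ 𝔞 ≠ 0 ↔ IsCoprime 𝔞 (Ideal.span {(N : 𝓞 K)}))) →
  (∀ x : 𝓞 K, InRay N x → ψ (Ideal.span {x}) = ∏ φ : K →+* ℂ, φ (x : K) ^ t φ) →
  ∃ (L : ℂ → ℂ) (s0 : ℝ), MeromorphicOn L Set.univ ∧ ∀ s : ℂ, s0 < s.re →
    HasProd (fun v : HeightOneSpectrum (𝓞 K) =>
      (1 - ψ v.asIdeal * (Ideal.absNorm v.asIdeal : ℂ) ^ (-s))⁻¹) (L s)

end Pool.Agent.H500.HC
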