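import Pool.Agent.H500.HC.Typ

set_option autoImplicit false
set_option linter.unusedSectionVars false

/-!
# Project HC: the parts of the assembly
-/

namespace Pool.Agent.H500.HC

open NumberField IsDedekindDomain Filter Topology Polynomial
open Pool.Agent.W401.Cheb (dens)

section

variable {K E : Type} [Field K] [NumberField K] [Field E] [NumberField E]

/-- `t` are the types of the `α v i` (rational version; see `types` in `HC/Typ.lean`) -/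
def TypQ (j : E →+* QBar) (N n h : ℕ) (α : HeightOneSpectrum (𝓞 K) → Fin n → ZBar)
    (t : Fin n → (K →+* E) → ℚ) : Prop :=
  ∀ v : HeightOneSpectrum (𝓞 K), (N : 𝓞 K) ∉ v.asIdeal →
    ∃ π : Equiv.Perm (Fin n), ∀ i (x : 𝓞 K), InRay N x → v.asIdeal ^ h = Ideal.span {x} →
      ∃ (m : ℕ) (c : (K →+* E) → ℤ), 0 < m ∧ (∀ σ, (c σ : ℚ) = m * t i σ) ∧
        (algebraMap ZBar QBar (α v (π i))) ^ (h * m) = ∏ σ, j ((em σ x : 𝓞 E) : E) ^ c σ

/-- `t` are the types of the `α v i` (integral version) -/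
def TypN (j : E →+* QBar) (N n h : ℕ) (α : HeightOneSpectrum (𝓞 K) → Fin n → ZBar)
    (t : Fin n → (K →+* E) → ℕ) : Prop :=
  ∀ v : HeightOneSpectrum (𝓞 K), (N : 𝓞 K) ∉ v.asIdeal →
    ∃ π : Equiv.Perm (Fin n), ∀ i (x : 𝓞 K), InRay N x → v.asIdeal ^ h = Ideal.span {x} →
      ∃ m : ℕ, 0 < m ∧ α v (π i) ^ (h * m) = jz j (typ (t i) x) ^ m

/-- local data where the characters have the types `t i` on the ray -/
structure Loc2 (j : E →+* QBar) (N n : ℕ) (α : HeightOneSpectrum (𝓞 K) → Fin n → ZBar)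
    (t : Fin n → (K →+* E) → ℕ) (lam : HeightOneSpectrum (𝓞 E)) where
  k : Type
  [fk : Field k]
  ψ : ZBar →+* k
  l : ℕ
  χ : Fin n → Ideal (𝓞 K) →*₀ k
  hker : RingHom.ker (ψ.comp (RingOfIntegers.mapRingHom j)) = lam.asIdeal
  hl : l.Prime
  hnorm : Ideal.absNorm lam.asIdeal = l
  hray : ∀ i, IsRayChar (N * l) (χ i)
  htyp : ∀ i (x : 𝓞 K), InRay N x → (∀ σ, em σ x ∉ lam.asIdeal) →
    χ i (Ideal.span {x}) = ψ (jz j (typ (t i) x))
  hroots : ∀ v : HeightOneSpectrum (𝓞 K), (N : 𝓞 K) ∉ v.asIdeal → (l : 𝓞 K) ∉ v.asIdeal →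
    ∃ π : Equiv.Perm (Fin n), ∀ i, ψ (α v (π i)) = χ i v.asIdeal

attribute [instance] Loc2.fk

end

/-- PART G0 (descent to `E`).  `f` is a polynomial over `𝓞_E` with roots `α i` in `ZBar`, all `≡ 1` modulo
(the kernel of) `ψ`, the characteristic `l` of `k` is large.  If a power of `α i0` is in `E` then `α i0` is.
Proof.  Let `β` be a root of the minimal polynomial of `α = α i0` over `E` (`Algebra E QBar` by `j`); it is
one of the `α i`, and `β^M = α^M`.  So `β = ζ α`, `ζ^M = 1` (`exists_ratio`), `ψ ζ = 1`, and `ζ = 1` by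
`ru_one`, `deg_quot` (in `HC/Red.lean`).  So `α` is the only root; the minimal polynomial is separable and
splits, so it has degree one (`minpoly.mem_range_of_degree_eq_one`), and `α ∈ E` is integral. -/
def S_Desc : Prop := ∀ (E : Type) [Field E] [NumberField E] (j : E →+* QBar) (n : ℕ) (f : (𝓞 E)[X])
  (α : Fin n → ZBar), f.map (jz j) = ∏ i, (X - Polynomial.C (α i)) →
  ∀ (k : Type) [Field k] (ψ : ZBar →+* k) (l : ℕ), l.Prime → (l : k) = 0 →
  2 * (n * (n * Module.finrank ℚ E)) < l → (∀ i, ψ (α i) = 1) → ∀ (i0 : Fin n) (M : ℕ) (e : E),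
  0 < M → (algebraMap ZBar QBar (α i0)) ^ M = j e → ∃ b : 𝓞 E, α i0 = jz j b

/-- PART G1 (the types are natural numbers).  From `S_Dir`, `S_Nrm`, `S_Desc`.
Proof.  Fix `i`, `σ`.  Choose a `lam` with local data `L : Loc j N n α lam`, `L.l` larger than
`2 n² [E : ℚ]`.  `S_Dir` for `E`, modulus `N * L.l`, `x0 = 1`, a large bound `B` (the one of `S_Nrm`, `N`, `L.l`):
a prime `w = (y)` of `E` of degree one, `InRay (N * L.l) y`.  `S_Nrm` with `M = N * L.l` and `σ`: a prime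
`v = (x)` of `K`, `InRay (N * L.l) x`, `em σ x ∈ w`, `em σ x ∉ w²`, `em τ x ∉ w` for `τ ≠ σ`; the norm of `v` is a
prime number larger than `N`, `L.l`, so `v` does not contain `N`, `L.l` (`natCast_mem_iff_dvd`).
`(L.hray i).ray` gives `χ_i(v) = 1`, so `ψ (α v i) = 1` for all `i` (`L.hroots`).  Apply the hypothesis
`TypQ` to `v` and `x ^ h` (`v^h = (x^h)`): `α^{hm} = ∏ j(em τ (x^h))^{c τ}`, `α = α v (π i)`; by `S_Desc`,
`α = jz j b`.  Then `b^{hm} = ∏_τ (em τ (x^h))^{c τ}` in `E`; compare the `w`-adic valuations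
(`HeightOneSpectrum.valuation`): `h m ord(b) = h c_σ`, so `c σ = m ord(b)`, `t i σ = ord(b)`. -/
def S_Int : Prop := ∀ (K E : Type) [Field K] [NumberField K] [Field E] [NumberField E],
  Fintype.card (K →+* E) = Module.finrank ℚ K → ∀ (j : E →+* QBar) (N n h : ℕ), 0 < N → 0 < h →
  ∀ (P : HeightOneSpectrum (𝓞 K) → (𝓞 E)[X]) (α : HeightOneSpectrum (𝓞 K) → Fin n → ZBar),
  (∀ v : HeightOneSpectrum (𝓞 K), (N : 𝓞 K) ∉ v.asIdeal →
    (P v).map (jz j) = ∏ i, (X - Polynomial.C (α v i))) →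
  {lam : HeightOneSpectrum (𝓞 E) | Nonempty (Loc j N n α lam)}.Infinite →
  ∀ t : Fin n → (K →+* E) → ℚ, TypQ j N n h α t → ∀ i σ, ∃ a : ℕ, t i σ = a

/-- PART G2 (two places: the characters have the types `t i` on the ray).  From `S_Crt`, `S_Dir`,
`S_Chars`.
Proof.  Let `L` be local data at `lam`, `L.l > B` (the `B` of `S_Crt`, `n`).  Choose `lam'` with local data `L'`,
`L'.l ≠ L.l`, `L'.l > 2 n [E : ℚ]`, `L'.l` larger than the `B` of `S_Crt`.  (1) Let `g : (K →+* E) → (ZMod L.l)ˣ`.  By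
`S_Crt` (2) for `lam` with `M = N * L'.l` there is a `y0`, `InRay (N * L'.l) y0`, `em σ y0 ≡ g σ mod lam`, and a `z` with
`em σ z ≡ (g σ)⁻¹`; by `S_Crt` (1) `L.l ∣ y0 z - 1`, so `y0` is prime to `L.l`, and to `N * L'.l`.  `S_Dir` for `K`,
modulus `N * L.l * L'.l`, `x0 = y0`: a prime `v = (y)`, `y ≡ y0`, totally positive, not containing `N`, `L.l`,
`L'.l` (norm prime and large).  `InRay (N * L'.l) y`: all `ψ' (α v i) = 1` (`L'.hray`, `L'.hroots`).  `TypN` at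
`v` and `x = y ^ h`: `(α v (π i))^{hm} = (jz j (typ (t i) y))^{hm}`, and `ψ' (jz j (typ (t i) y)) = 1`
(`L'.em_congr`: `em σ y ≡ 1 mod lam'`).  By `exists_ratio` and `ru_one` (degree: `deg_adj` and `deg_el`, the
ratio is in the field `E(α v (π i))` of degree `≤ n [E : ℚ]`) `α v (π i) = jz j (typ (t i) y)`.  (2) So for
`L`: `∏ (X - χ_i(v)) = ∏ (X - ψ (jz j (typ (t i) y)))`, `χ_i(v) = ∏_σ ψ (jz j (em σ y))^{a i σ}` (`L.hexp`), and
`ψ (jz j (em σ y))` is the image of `g σ` in `k` (characteristic `L.l`: `L.charP`).  (3) `S_Chars` for the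
group `(K →+* E) → (ZMod L.l)ˣ`: the characters `g ↦ ∏ (g σ)^{a i σ}` and `g ↦ ∏ (g σ)^{t i σ}` agree up to a
permutation `π`.  (4) For `x` in the ray, `em σ x ∉ lam`: `𝓞_E / lam = 𝔽_l` so `em σ x ≡ g σ` for some `g`;
`L.hexp`. -/
def S_Chi : Prop := ∀ (K E : Type) [Field K] [NumberField K] [Field E] [NumberField E],
  Fintype.card (K →+* E) = Module.finrank ℚ K → ∀ (j : E →+* QBar) (N n h : ℕ), 0 < N → 0 < h →
  ∀ (P : HeightOneSpectrum (𝓞 K) → (𝓞 E)[X]) (α : HeightOneSpectrum (𝓞 K) → Fin n → ZBar),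
  (∀ v : HeightOneSpectrum (𝓞 K), (N : 𝓞 K) ∉ v.asIdeal →
    (P v).map (jz j) = ∏ i, (X - Polynomial.C (α v i))) →
  {lam : HeightOneSpectrum (𝓞 E) | Nonempty (Loc j N n α lam)}.Infinite →
  ∀ t : Fin n → (K →+* E) → ℕ, TypN j N n h α t →
  ∃ B : ℕ, ∀ (lam : HeightOneSpectrum (𝓞 E)) (L : Loc j N n α lam), B < L.l →
    ∃ π : Equiv.Perm (Fin n), ∀ i (x : 𝓞 K), InRay N x → (∀ σ, em σ x ∉ lam.asIdeal) →
      L.χ i (Ideal.span {x}) = L.ψ (jz j (typ (t (π i)) x))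

/-- PART G3 (the characters in characteristic zero).  `h`, `R` are from `S_Cls`.
Proof.  (1) `typ (t i) u = 1` for all units `u` in the ray (`χ i (span {u}) = χ i ⊤ = 1`, so
`jz j (typ (t i) u) - 1` is killed by infinitely many `ψ`; `eq_zero_of_inf`).  (2) Let `L : Loc2 …` be data at
`lam`, `L.l > h`.  For an ideal `𝔞` prime to `N * L.l` (`≠ ⊥`) and every `i` there is exactly one `z ∈ ZBar` with
`z ^ h = jz j (typ (t i) x)`, `L.ψ z = L.χ i 𝔞`, where `𝔞 ^ h = (x)`, `InRay N x` (existence: `root_lift`,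
uniqueness: `root_unique`; independent of `x` by (1); `em σ x ∉ lam` since `𝔞^h` is prime to `L.l` and
`em σ` maps `1 = a + l b` to an equation).  Call it `Z_L i 𝔞`.  By uniqueness `Z_L` is multiplicative
in `𝔞`, and `Z_L i (x) = jz j (typ (t i) x)` for `x` in the ray, prime to `L.l`.  (3) `Z_L i 𝔞` is determined by
the `Z_L i 𝔯`, `𝔯 ∈ R`: `𝔞 𝔯^{h-1} = (x)`, `Z(𝔞) Z(𝔯)^{h-1} = jz j (typ (t i) x)`.  The `Z_L i 𝔯` are `h`-th roots of
given elements: finitely many possibilities; so (pigeonhole) there is an infinite set `S` of places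
with data (`L.l > h`, `L.l` prime to `R`) with the same `Z_L i 𝔯`, and then `Z_L i 𝔞 = Z_{L'} i 𝔞` for all `𝔞` prime to
`N`, `L.l`, `L'.l`.  (4) `ψ i 𝔞 := Z_L i 𝔞` for any `lam ∈ S` with `L.l` prime to `𝔞` (zero if `𝔞` is not prime to
`N`, or `𝔞 = ⊥`).  (5) `(P v).map (jz j) = ∏ (X - C (ψ i v))`: modulo all `lam ∈ S` (not above the prime number
below `v`) both sides are `∏ (X - χ_i(v))`; `eq_zero_of_inf` for the coefficients of the difference. -/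
def S_Glue : Prop := ∀ (K E : Type) [Field K] [NumberField K] [Field E] [NumberField E]
  (j : E →+* QBar) (N n h : ℕ) (R : Finset (Ideal (𝓞 K))), 0 < N → 0 < h →
  (∀ 𝔯 ∈ R, 𝔯 ≠ ⊥ ∧ IsCoprime 𝔯 (Ideal.span {(N : 𝓞 K)})) →
  (∀ 𝔞 : Ideal (𝓞 K), 𝔞 ≠ ⊥ → IsCoprime 𝔞 (Ideal.span {(N : 𝓞 K)}) →
    (∃ x : 𝓞 K, InRay N x ∧ 𝔞 ^ h = Ideal.span {x}) ∧
    ∃ 𝔯 ∈ R, ∃ x : 𝓞 K, InRay N x ∧ 𝔞 * 𝔯 ^ (h - 1) = Ideal.span {x}) →
  ∀ (P : HeightOneSpectrum (𝓞 K) → (𝓞 E)[X]) (α : HeightOneSpectrum (𝓞 K) → Fin n → ZBar),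
  (∀ v : HeightOneSpectrum (𝓞 K), (N : 𝓞 K) ∉ v.asIdeal →
    (P v).map (jz j) = ∏ i, (X - Polynomial.C (α v i))) →
  ∀ t : Fin n → (K →+* E) → ℕ,
  {lam : HeightOneSpectrum (𝓞 E) | Nonempty (Loc2 j N n α t lam)}.Infinite →
  ∃ ψ : Fin n → (Ideal (𝓞 K) →*₀ ZBar),
    (∀ i (𝔞 : Ideal (𝓞 K)), 𝔞 ≠ ⊥ → (ψ i 𝔞 ≠ 0 ↔ IsCoprime 𝔞 (Ideal.span {(N : 𝓞 K)}))) ∧
    (∀ i (x : 𝓞 K), InRay N x → ψ i (Ideal.span {x}) = jz j (typ (t i) x)) ∧
    ∀ v : HeightOneSpectrum (𝓞 K), (N : 𝓞 K) ∉ v.asIdeal →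
      (P v).map (jz j) = ∏ i, (X - Polynomial.C (ψ i v.asIdeal))

end Pool.Agent.H500.HC
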