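import Pool.Agent.H500.HC.Main
import Pool.Agent.H548.HC.Ratio
import Pool.Agent.H215.HC.DensF
import Pool.Agent.H800.HC.Indep
import Pool.Agent.H253.HC.Bad
import Pool.Agent.H870.HC.KD
import Pool.Agent.H71.HC.Crt
import Pool.Agent.H181.HC.Exp
import Pool.Agent.H199.HC.Cls
import Pool.Agent.H955.HC.Dir
import Pool.Agent.H962.HC.Split
import Pool.Agent.H115.HC.Nrm
import Pool.Agent.H738.HC.Chars
import Pool.Agent.H354.HC.Deg
import Pool.Agent.H181.HC.Desc
import Pool.Agent.H738.HC.Int
import Pool.Agent.H721.HC.Chi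
import Pool.Agent.H401.HC.Glue

set_option autoImplicit false
set_option linter.unusedSectionVars false

/-!
# Families which are abelian modulo many places come from Hecke characters: everything together
-/

namespace Pool.Agent.H500.HC

open NumberField IsDedekindDomain Filter Topology Polynomial
open Pool.Agent.H500.MW (PosUD)

theorem all_Ratio : S_Ratio := Pool.Agent.H548.HC.Ratio.main

theorem all_DensF : S_DensF := Pool.Agent.H215.HC.DensF.main all_Ratio

theorem all_Indep : S_Indep := Pool.Agent.H800.HC.Indep.main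

theorem all_Bad : S_Bad := Pool.Agent.H253.HC.Bad.main

theorem all_KD : S_KD := Pool.Agent.H870.HC.KD.main all_DensF all_Indep all_Bad

theorem all_Crt : S_Crt := Pool.Agent.H71.HC.Crt.main

theorem all_Exp : S_Exp := Pool.Agent.H181.HC.Exp.main all_Crt

theorem all_Cls : S_Cls := Pool.Agent.H199.HC.Cls.main

theorem all_Dir : S_Dir := Pool.Agent.H955.HC.Dir.main

theorem all_Split : S_Split := Pool.Agent.H962.HC.Split.main all_Crt

theorem all_Nrm : S_Nrm := Pool.Agent.H115.HC.Nrm.main all_Crt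

theorem all_Chars : S_Chars := Pool.Agent.H738.HC.Chars.main

theorem all_Deg : S_Deg := Pool.Agent.H354.HC.Deg.main

theorem all_Desc : S_Desc := Pool.Agent.H181.HC.Desc.main

theorem all_Int : S_Int := Pool.Agent.H738.HC.Int.main all_Dir all_Nrm all_Desc

theorem all_Chi : S_Chi := Pool.Agent.H721.HC.Chi.main all_Crt all_Dir all_Chars

theorem all_Glue : S_Glue := Pool.Agent.H401.HC.Glue.main

/-- **Families which are abelian modulo many places come from Hecke characters.** -/
theorem main {K E : Type} [Field K] [NumberField K] [Field E] [NumberField E]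
    (hcard : Fintype.card (K →+* E) = Module.finrank ℚ K) (j : E →+* QBar) (N n : ℕ) (hN : 0 < N)
    (P : HeightOneSpectrum (𝓞 K) → (𝓞 E)[X]) (hP : PosUD (AbRes N n P)) :
    ∃ (t : Fin n → (K →+* E) → ℕ) (ψ : Fin n → (Ideal (𝓞 K) →*₀ ZBar)),
      (∀ i (𝔞 : Ideal (𝓞 K)), 𝔞 ≠ ⊥ → (ψ i 𝔞 ≠ 0 ↔ IsCoprime 𝔞 (Ideal.span {(N : 𝓞 K)}))) ∧
      (∀ i (x : 𝓞 K), InRay N x → ψ i (Ideal.span {x}) = jz j (typ (t i) x)) ∧
      ∀ v : HeightOneSpectrum (𝓞 K), (N : 𝓞 K) ∉ v.asIdeal →
        (P v).map (jz j) = ∏ i, (X - Polynomial.C (ψ i v.asIdeal)) :=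
  main_of all_Exp all_KD all_Split all_Cls all_Int all_Chi all_Glue all_Deg hcard j N n hN P hP

end Pool.Agent.H500.HC
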