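import Pool.Agent.H500.HC.Stm2

set_option autoImplicit false
set_option linter.unusedSectionVars false

/-!
# Families which are abelian modulo many places: the assembly
-/

namespace Pool.Agent.H500.HC

open NumberField IsDedekindDomain Filter Topology Polynomial
open Pool.Agent.W401.Cheb (dens)
open Pool.Agent.H500.MW (PosUD dens_exists)

section

variable {K E : Type} [Field K] [NumberField K] [Field E] [NumberField E]

theorem coprime_of_not_mem {v : HeightOneSpectrum (𝓞 K)} {a : 𝓞 K} (h : a ∉ v.asIdeal) :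
    IsCoprime v.asIdeal (Ideal.span {a}) := by
  rw [Ideal.isCoprime_iff_sup_eq]
  have hmax := v.isMaximal
  by_contra hne
  apply h
  have h1 : v.asIdeal = v.asIdeal ⊔ Ideal.span {a} := hmax.eq_of_le hne le_sup_left
  rw [h1]
  exact Ideal.mem_sup_right (Ideal.mem_span_singleton_self a)

theorem not_mem_of_coprime {v : HeightOneSpectrum (𝓞 K)} {a : 𝓞 K}
    (h : IsCoprime v.asIdeal (Ideal.span {a})) : a ∉ v.asIdeal := by
  intro ha
  rw [Ideal.isCoprime_iff_sup_eq, sup_eq_left.2 ((Ideal.span_singleton_le_iff_mem _).2 ha)] at h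
  exact v.isPrime.ne_top h

theorem zero_of_inf {b : 𝓞 E} {S : Set (HeightOneSpectrum (𝓞 E))} (hS : S.Infinite)
    (h : ∀ lam ∈ S, b ∈ lam.asIdeal) : b = 0 := by
  by_contra hb
  exact hS ((Pool.Agent.H500.Kum.fin_mem hb).subset h)

/-- the norms of infinitely many places are unbounded -/
theorem inf_large {S : Set (HeightOneSpectrum (𝓞 E))} (hS : S.Infinite) (B : ℕ) :
    {lam | lam ∈ S ∧ B < Ideal.absNorm lam.asIdeal}.Infinite := by
  intro hfin
  apply hS
  refine (hfin.union (Pool.Agent.W352.ChAbs.finite_le (K := E) B)).subset ?_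
  intro lam hlam
  by_cases h : B < Ideal.absNorm lam.asIdeal
  · exact Or.inl ⟨hlam, h⟩
  · exact Or.inr (not_lt.1 h)

/-- the polynomials are monic -/
theorem monic_of (N n : ℕ) (P : HeightOneSpectrum (𝓞 K) → (𝓞 E)[X])
    (hinf : {lam | AbRes N n P lam}.Infinite) (v : HeightOneSpectrum (𝓞 K))
    (hv : (N : 𝓞 K) ∉ v.asIdeal) : (P v).Monic ∧ (P v).natDegree = n := by
  classical
  set S : Set (HeightOneSpectrum (𝓞 E)) := {lam | AbRes N n P lam ∧
    ((Ideal.absNorm v.asIdeal : ℕ) : 𝓞 E) ∉ lam.asIdeal} with hSdef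
  have hS : S.Infinite := by
    intro hfin
    apply hinf
    refine (hfin.union (Pool.Agent.H500.Kum.fin_mem (E := E)
      (x := ((Ideal.absNorm v.asIdeal : ℕ) : 𝓞 E)) (Nat.cast_ne_zero.2 (norm_ne_zero v)))).subset ?_
    intro lam hlam
    by_cases h : ((Ideal.absNorm v.asIdeal : ℕ) : 𝓞 E) ∈ lam.asIdeal
    · exact Or.inr h
    · exact Or.inl ⟨hlam, h⟩
  have key : ∀ lam ∈ S, ∀ m : ℕ, (P v).coeff m - (if m = n then 1 else if n < m then 0
      else (P v).coeff m) ∈ lam.asIdeal := by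
    rintro lam ⟨⟨k, _, φ, l, χ, hφ, hl, hlm, hray, hP⟩, hnv⟩ m
    have hlv : (l : 𝓞 K) ∉ v.asIdeal := by
      intro h1
      apply hnv
      exact (natCast_mem_iff_dvd hl hlm).2 ((natCast_mem_iff_dvd hl h1).1 (norm_mem v))
    have h1 := hP v hv hlv
    have hmon : (∏ i, (X - Polynomial.C (χ i v.asIdeal))).Monic :=
      monic_prod_of_monic _ _ fun i _ => monic_X_sub_C _
    have hdeg : (∏ i, (X - Polynomial.C (χ i v.asIdeal))).natDegree = n := by
      rw [natDegree_prod_of_monic _ _ fun i _ => monic_X_sub_C _]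
      simp
    rw [← hφ, RingHom.mem_ker, map_sub, ← Polynomial.coeff_map, h1]
    by_cases hm : m = n
    · rw [if_pos hm, map_one, hm, sub_eq_zero]
      have h2 := hmon.coeff_natDegree
      rwa [hdeg] at h2
    · rw [if_neg hm]
      by_cases hm2 : n < m
      · rw [if_pos hm2, map_zero, sub_zero]
        exact coeff_eq_zero_of_natDegree_lt (by rw [hdeg]; exact hm2)
      · rw [if_neg hm2, ← Polynomial.coeff_map, h1, sub_self]
  have h1 : (P v).coeff n = 1 := by
    have := zero_of_inf hS fun lam hlam => key lam hlam n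
    rw [if_pos rfl, sub_eq_zero] at this
    exact this
  have h2 : ∀ m, n < m → (P v).coeff m = 0 := by
    intro m hm
    have := zero_of_inf hS fun lam hlam => key lam hlam m
    rw [if_neg hm.ne', if_pos hm, sub_zero] at this
    exact this
  have h3 : (P v).natDegree ≤ n := natDegree_le_iff_coeff_eq_zero.2 h2
  have h4 : (P v).natDegree = n := by
    refine le_antisymm h3 (le_natDegree_of_ne_zero ?_)
    rw [h1]
    exact one_ne_zero
  refine ⟨?_, h4⟩
  rw [Monic, leadingCoeff, h4, h1]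

/-- the roots in `ZBar` -/
theorem exists_alpha (j : E →+* QBar) {f : (𝓞 E)[X]} {n : ℕ} (hf : f.Monic) (hn : f.natDegree = n) :
    ∃ α : Fin n → ZBar, f.map (jz j) = ∏ i, (X - Polynomial.C (α i)) := by
  obtain ⟨y, hy⟩ := zbar_split (f.map (jz j)) (hf.map _)
  have hdeg : (f.map (jz j)).natDegree = n := by
    rw [hf.natDegree_map, hn]
  refine ⟨fun i => y (Fin.cast hdeg.symm i), ?_⟩
  conv_lhs => rw [hy]
  exact Fintype.prod_equiv (finCongr hdeg) _ _ fun i => rfl

/-- **Families which are abelian modulo many places come from Hecke characters.** -/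
theorem main_of (hExp : S_Exp) (hKD : S_KD) (hSplit : S_Split) (hCls : S_Cls) (hInt : S_Int)
    (hChi : S_Chi) (hGlue : S_Glue) (hDeg : S_Deg)
    (hcard : Fintype.card (K →+* E) = Module.finrank ℚ K) (j : E →+* QBar) (N n : ℕ) (hN : 0 < N)
    (P : HeightOneSpectrum (𝓞 K) → (𝓞 E)[X]) (hP : PosUD (AbRes N n P)) :
    ∃ (t : Fin n → (K →+* E) → ℕ) (ψ : Fin n → (Ideal (𝓞 K) →*₀ ZBar)),
      (∀ i (𝔞 : Ideal (𝓞 K)), 𝔞 ≠ ⊥ → (ψ i 𝔞 ≠ 0 ↔ IsCoprime 𝔞 (Ideal.span {(N : 𝓞 K)}))) ∧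
      (∀ i (x : 𝓞 K), InRay N x → ψ i (Ideal.span {x}) = jz j (typ (t i) x)) ∧
      ∀ v : HeightOneSpectrum (𝓞 K), (N : 𝓞 K) ∉ v.asIdeal →
        (P v).map (jz j) = ∏ i, (X - Polynomial.C (ψ i v.asIdeal)) := by
  classical
  have hmon := monic_of N n P hP.infinite
  have hex : ∀ v : HeightOneSpectrum (𝓞 K), ∃ α : Fin n → ZBar, (N : 𝓞 K) ∉ v.asIdeal →
      (P v).map (jz j) = ∏ i, (X - Polynomial.C (α i)) := by
    intro v
    by_cases hv : (N : 𝓞 K) ∉ v.asIdeal
    · obtain ⟨α, hα⟩ := exists_alpha j (hmon v hv).1 (hmon v hv).2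
      exact ⟨α, fun _ => hα⟩
    · exact ⟨0, fun h => absurd h hv⟩
  choose α hα using hex
  obtain ⟨B, hB⟩ := exists_loc hExp hcard j N n hN P α hα
  set Λ : HeightOneSpectrum (𝓞 E) → Prop := fun lam => (AbRes N n P lam ∧
    ¬ ¬ (Ideal.absNorm lam.asIdeal).Prime) ∧ ¬ Ideal.absNorm lam.asIdeal ≤ B with hΛdef
  have hΛ : PosUD Λ := (hP.diff (hDeg E)).diff
    (Pool.Agent.H500.Kum.dens_fin _ (Pool.Agent.W352.ChAbs.finite_le (K := E) B))
  have hloc : ∀ lam, Λ lam → Nonempty (Loc j N n α lam) := fun lam h =>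
    hB lam h.1.1 (not_not.1 h.1.2) (not_le.1 h.2)
  have hinf : {lam : HeightOneSpectrum (𝓞 E) | Nonempty (Loc j N n α lam)}.Infinite :=
    hΛ.infinite.mono hloc
  have hα0 : ∀ v : HeightOneSpectrum (𝓞 K), (N : 𝓞 K) ∉ v.asIdeal → ∀ i, α v i ≠ 0 := by
    intro v hv i
    obtain ⟨lam, hlam, hnl⟩ := (hΛ.diff (Pool.Agent.H500.Kum.dens_fin _
      (Pool.Agent.H500.Kum.fin_mem (E := E) (x := ((Ideal.absNorm v.asIdeal : ℕ) : 𝓞 E))
      (Nat.cast_ne_zero.2 (norm_ne_zero v))))).nonempty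
    obtain ⟨L⟩ := hloc lam hlam
    have hlv := L.not_mem hnl
    obtain ⟨π, hπ⟩ := L.hroots v hv hlv
    have h1 := hπ (π.symm i)
    rw [Equiv.apply_symm_apply] at h1
    intro h0
    rw [h0, map_zero] at h1
    refine ((L.hray (π.symm i)).supp v.asIdeal v.ne_bot).2 ?_ h1.symm
    refine coprime_of_not_mem ?_
    rw [Nat.cast_mul]
    intro h2
    rcases v.isPrime.mem_or_mem h2 with h3 | h3
    · exact hv h3
    · exact hlv h3
  obtain ⟨h, R, hh, hR, hcl⟩ := hCls K N hN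
  have hcl' : ∀ v : HeightOneSpectrum (𝓞 K), (N : 𝓞 K) ∉ v.asIdeal →
      ∃ x : 𝓞 K, InRay N x ∧ v.asIdeal ^ h = Ideal.span {x} := fun v hv =>
    (hcl v.asIdeal v.ne_bot (coprime_of_not_mem hv)).1
  obtain ⟨tq, htq⟩ := types hKD hSplit hcard j hN hα0 hΛ hloc hh hcl'
  have hint := hInt K E hcard j N n h hN hh P α hα hinf tq htq
  choose t ht using hint
  have htN : TypN j N n h α t := by
    intro v hv
    obtain ⟨π, hπ⟩ := htq v hv
    refine ⟨π, fun i x hx hvx => ?_⟩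
    obtain ⟨m, c, hm, hc, h1⟩ := hπ i x hx hvx
    refine ⟨m, hm, ?_⟩
    apply zq_inj
    rw [map_pow, h1, map_pow]
    have h2 : algebraMap ZBar QBar (jz j (typ (t i) x)) =
        ∏ σ, j ((em σ x : 𝓞 E) : E) ^ t i σ := by
      have h3 : algebraMap ZBar QBar (jz j (typ (t i) x)) = j ((typ (t i) x : 𝓞 E) : E) := rfl
      rw [h3]
      have h4 : j ((typ (t i) x : 𝓞 E) : E) = (j.comp (algebraMap (𝓞 E) E)) (typ (t i) x) := rfl
      rw [h4]
      unfold typ
      rw [map_prod]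
      refine Finset.prod_congr rfl fun σ _ => ?_
      rw [map_pow]
      rfl
    rw [h2, ← Finset.prod_pow]
    refine Finset.prod_congr rfl fun σ _ => ?_
    have h4 : c σ = ((t i σ * m : ℕ) : ℤ) := by
      have h5 : (c σ : ℚ) = ((t i σ * m : ℕ) : ℚ) := by
        rw [hc σ, ht i σ]
        push_cast
        ring
      exact_mod_cast h5
    rw [h4, zpow_natCast, pow_mul]
  obtain ⟨B2, hB2⟩ := hChi K E hcard j N n h hN hh P α hα hinf t htN
  refine ⟨t, hGlue K E j N n h R hN hh hR hcl P α hα t ?_⟩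
  refine (inf_large hinf B2).mono ?_
  rintro lam ⟨⟨L⟩, hlarge⟩
  rw [L.hnorm] at hlarge
  obtain ⟨π, hπ⟩ := hB2 lam L hlarge
  refine ⟨⟨L.k, L.ψ, L.l, fun i => L.χ (π.symm i), L.hker, L.hl, L.hnorm,
    fun i => L.hray _, fun i x hx hσ => ?_, fun v hv hlv => ?_⟩⟩
  · rw [hπ (π.symm i) x hx hσ, Equiv.apply_symm_apply]
  · obtain ⟨π', hπ'⟩ := L.hroots v hv hlv
    exact ⟨π.symm.trans π', fun i => hπ' (π.symm i)⟩

end

end Pool.Agent.H500.HC
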