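import Pool.Agent.H500.HC.Red

set_option autoImplicit false
set_option linter.unusedSectionVars false

/-!
# The local data at a place
-/

namespace Pool.Agent.H500.HC

open NumberField IsDedekindDomain Filter Topology Polynomial
open Pool.Agent.W401.Cheb (dens)
open Pool.Agent.H500.MW (PosUD)

section basics

variable {K : Type} [Field K] [NumberField K]

theorem natCast_mem_iff_dvd {v : HeightOneSpectrum (𝓞 K)} {l : ℕ} (hl : l.Prime)
    (hv : (l : 𝓞 K) ∈ v.asIdeal) {a : ℕ} : (a : 𝓞 K) ∈ v.asIdeal ↔ l ∣ a := by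
  constructor
  · intro ha
    by_contra hd
    have hc : IsCoprime (l : ℤ) (a : ℤ) := by
      rw [Int.isCoprime_iff_gcd_eq_one]
      have := (hl.coprime_iff_not_dvd).2 hd
      simpa using this
    obtain ⟨x, y, hxy⟩ := hc
    apply v.isPrime.ne_top
    rw [Ideal.eq_top_iff_one]
    have h1 : (1 : 𝓞 K) = (x : 𝓞 K) * (l : 𝓞 K) + (y : 𝓞 K) * (a : 𝓞 K) := by
      have := congrArg (fun z : ℤ => (z : 𝓞 K)) hxy
      push_cast at this
      exact this.symm
    rw [h1]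
    exact Ideal.add_mem _ (Ideal.mul_mem_left _ _ hv) (Ideal.mul_mem_left _ _ ha)
  · rintro ⟨b, rfl⟩
    rw [Nat.cast_mul]
    exact Ideal.mul_mem_right _ _ hv

theorem norm_mem (v : HeightOneSpectrum (𝓞 K)) :
    ((Ideal.absNorm v.asIdeal : ℕ) : 𝓞 K) ∈ v.asIdeal := Ideal.absNorm_mem _

theorem norm_ne_zero (v : HeightOneSpectrum (𝓞 K)) : Ideal.absNorm v.asIdeal ≠ 0 := by
  rw [Ne, Ideal.absNorm_eq_zero_iff]
  exact v.ne_bot

theorem prime_eq {v : HeightOneSpectrum (𝓞 K)} {l q : ℕ} (hl : l.Prime) (hq : q.Prime)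
    (h1 : (l : 𝓞 K) ∈ v.asIdeal) (h2 : (q : 𝓞 K) ∈ v.asIdeal) : l = q :=
  (Nat.prime_dvd_prime_iff_eq hl hq).1 ((natCast_mem_iff_dvd hl h1).1 h2)

theorem InRay.one (N : ℕ) : InRay N (1 : 𝓞 K) :=
  ⟨one_ne_zero, by rw [sub_self]; exact dvd_zero _, fun τ => by simp⟩

theorem InRay.mul {N : ℕ} {x y : 𝓞 K} (hx : InRay N x) (hy : InRay N y) : InRay N (x * y) := by
  refine ⟨mul_ne_zero hx.1 hy.1, ?_, fun τ => ?_⟩
  · have : x * y - 1 = x * (y - 1) + (x - 1) := by ring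
    rw [this]
    exact dvd_add (Dvd.dvd.mul_left hy.2.1 _) hx.2.1
  · have h1 := mul_pos (hx.2.2 τ) (hy.2.2 τ)
    rw [← map_mul] at h1
    exact h1

theorem InRay.pow {N : ℕ} {x : 𝓞 K} (hx : InRay N x) (m : ℕ) : InRay N (x ^ m) := by
  induction m with
  | zero => rw [pow_zero]; exact InRay.one N
  | succ m ih => rw [pow_succ]; exact ih.mul hx

theorem InRay.of_mul {N : ℕ} {x y : 𝓞 K} (hxy : InRay N (x * y)) (hy : InRay N y) : InRay N x := by
  refine ⟨left_ne_zero_of_mul hxy.1, ?_, fun τ => ?_⟩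
  · have : x - 1 = (x * y - 1) - x * (y - 1) := by ring
    rw [this]
    exact dvd_sub hxy.2.1 (Dvd.dvd.mul_left hy.2.1 _)
  · have h1 := hxy.2.2 τ
    have h2 := hy.2.2 τ
    have h3 : τ ((x * y : 𝓞 K) : K) = τ (x : K) * τ (y : K) := map_mul τ (x : K) (y : K)
    rw [h3] at h1
    exact (pos_iff_pos_of_mul_pos h1).2 h2

theorem InRay.mono {N M : ℕ} (h : N ∣ M) {x : 𝓞 K} (hx : InRay M x) : InRay N x :=
  ⟨hx.1, dvd_trans (Nat.cast_dvd_cast h) hx.2.1, hx.2.2⟩

end basics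

section em

variable {K E : Type} [Field K] [NumberField K] [Field E] [NumberField E]

theorem em_ne_zero {x : 𝓞 K} (hx : x ≠ 0) (σ : K →+* E) : em σ x ≠ 0 := by
  intro h
  apply hx
  apply RingOfIntegers.coe_injective
  apply σ.injective
  have h1 := congrArg (algebraMap (𝓞 E) E) h
  rw [map_zero] at h1
  rw [map_zero, map_zero]
  exact h1

/-- the homomorphism to `ZBar` -/
noncomputable abbrev jz (j : E →+* QBar) : 𝓞 E →+* ZBar := RingOfIntegers.mapRingHom j

theorem jz_inj (j : E →+* QBar) : Function.Injective (jz j) := Pool.Agent.Y800.mapRingHom_injective j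

theorem em_mul (σ : K →+* E) (x y : 𝓞 K) : em σ (x * y) = em σ x * em σ y := map_mul _ _ _

theorem em_one (σ : K →+* E) : em σ (1 : 𝓞 K) = 1 := map_one _

theorem em_pow (σ : K →+* E) (x : 𝓞 K) (m : ℕ) : em σ (x ^ m) = em σ x ^ m := map_pow _ _ _

theorem typ_mul (t : (K →+* E) → ℕ) (x y : 𝓞 K) : typ t (x * y) = typ t x * typ t y := by
  unfold typ
  rw [← Finset.prod_mul_distrib]
  refine Finset.prod_congr rfl fun σ _ => ?_
  rw [em_mul, mul_pow]

theorem typ_one (t : (K →+* E) → ℕ) : typ t (1 : 𝓞 K) = 1 := by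
  unfold typ
  exact Finset.prod_eq_one fun σ _ => by rw [em_one, one_pow]

theorem typ_pow (t : (K →+* E) → ℕ) (x : 𝓞 K) (m : ℕ) : typ t (x ^ m) = typ t x ^ m := by
  induction m with
  | zero => rw [pow_zero, pow_zero, typ_one]
  | succ m ih => rw [pow_succ, typ_mul, ih, pow_succ]

theorem typ_ne_zero (t : (K →+* E) → ℕ) {x : 𝓞 K} (hx : x ≠ 0) : typ t x ≠ 0 :=
  Finset.prod_ne_zero_iff.2 fun σ _ => pow_ne_zero _ (em_ne_zero hx σ)

end em

section Loc

variable {K E : Type} [Field K] [NumberField K] [Field E] [NumberField E]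

/-- The local data at a place `lam` of degree one. -/
structure Loc (j : E →+* QBar) (N n : ℕ) (α : HeightOneSpectrum (𝓞 K) → Fin n → ZBar)
    (lam : HeightOneSpectrum (𝓞 E)) where
  k : Type
  [fk : Field k]
  ψ : ZBar →+* k
  l : ℕ
  χ : Fin n → Ideal (𝓞 K) →*₀ k
  a : Fin n → (K →+* E) → ℕ
  hker : RingHom.ker (ψ.comp (RingOfIntegers.mapRingHom j)) = lam.asIdeal
  hl : l.Prime
  hnorm : Ideal.absNorm lam.asIdeal = l
  hlN : ¬ l ∣ N
  hray : ∀ i, IsRayChar (N * l) (χ i)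
  hexp : ∀ i (x : 𝓞 K), InRay N x → (∀ σ, em σ x ∉ lam.asIdeal) →
    χ i (Ideal.span {x}) = ∏ σ, ψ (jz j (em σ x)) ^ a i σ
  hroots : ∀ v : HeightOneSpectrum (𝓞 K), (N : 𝓞 K) ∉ v.asIdeal → (l : 𝓞 K) ∉ v.asIdeal →
    ∃ π : Equiv.Perm (Fin n), ∀ i, ψ (α v (π i)) = χ i v.asIdeal

attribute [instance] Loc.fk

variable {j : E →+* QBar} {N n : ℕ} {α : HeightOneSpectrum (𝓞 K) → Fin n → ZBar}
  {lam : HeightOneSpectrum (𝓞 E)}

theorem Loc.mem_iff (L : Loc j N n α lam) (x : 𝓞 E) : x ∈ lam.asIdeal ↔ L.ψ (jz j x) = 0 := by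
  rw [← L.hker]
  exact RingHom.mem_ker

theorem Loc.l_mem (L : Loc j N n α lam) : (L.l : 𝓞 E) ∈ lam.asIdeal := by
  have := norm_mem lam
  rwa [L.hnorm] at this

theorem Loc.hlk (L : Loc j N n α lam) : (L.l : L.k) = 0 := by
  have h1 := (L.mem_iff _).1 L.l_mem
  rwa [map_natCast, map_natCast] at h1

theorem Loc.charP (L : Loc j N n α lam) : CharP L.k L.l := by
  obtain ⟨p, hp⟩ := CharP.exists L.k
  have h6 : p ∣ L.l := (CharP.cast_eq_zero_iff L.k p L.l).1 L.hlk
  rcases (Nat.dvd_prime L.hl).1 h6 with h7 | h7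
  · subst h7
    exact absurd (CharP.cast_eq_zero L.k 1) (by rw [Nat.cast_one]; exact one_ne_zero)
  · rwa [h7] at hp

/-- the place is not above the same prime number as `v` -/
theorem Loc.not_mem (L : Loc j N n α lam) {v : HeightOneSpectrum (𝓞 K)}
    (h : ((Ideal.absNorm v.asIdeal : ℕ) : 𝓞 E) ∉ lam.asIdeal) : (L.l : 𝓞 K) ∉ v.asIdeal := by
  intro h1
  apply h
  exact (natCast_mem_iff_dvd L.hl L.l_mem).2 ((natCast_mem_iff_dvd L.hl h1).1 (norm_mem v))

theorem Loc.em_congr (L : Loc j N n α lam) {x y : 𝓞 K} (h : (L.l : 𝓞 K) ∣ x - y) (σ : K →+* E) :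
    em σ x - em σ y ∈ lam.asIdeal := by
  obtain ⟨z, hz⟩ := h
  rw [← map_sub, hz, map_mul, map_natCast]
  exact Ideal.mul_mem_right _ _ L.l_mem

/-- the local data exist -/
theorem exists_loc (hExp : S_Exp) (hcard : Fintype.card (K →+* E) = Module.finrank ℚ K)
    (j : E →+* QBar) (N n : ℕ) (hN : 0 < N) (P : HeightOneSpectrum (𝓞 K) → (𝓞 E)[X])
    (α : HeightOneSpectrum (𝓞 K) → Fin n → ZBar)
    (hα : ∀ v : HeightOneSpectrum (𝓞 K), (N : 𝓞 K) ∉ v.asIdeal →
      (P v).map (jz j) = ∏ i, (X - Polynomial.C (α v i))) :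
    ∃ B : ℕ, ∀ lam : HeightOneSpectrum (𝓞 E), AbRes N n P lam →
      (Ideal.absNorm lam.asIdeal).Prime → B < Ideal.absNorm lam.asIdeal →
      Nonempty (Loc j N n α lam) := by
  classical
  obtain ⟨B, hB⟩ := hExp K E hcard
  refine ⟨max B N, ?_⟩
  rintro lam ⟨k, _, φ, l, χ, hφ, hl, hlm, hray, hP⟩ hprime hlarge
  have hle : Ideal.absNorm lam.asIdeal = l := prime_eq hprime hl (norm_mem lam) hlm
  have hlB : B < l := by
    rw [← hle]
    exact lt_of_le_of_lt (le_max_left _ _) hlarge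
  have hlN' : N < l := by
    rw [← hle]
    exact lt_of_le_of_lt (le_max_right _ _) hlarge
  have hlN : ¬ l ∣ N := fun h => absurd (Nat.le_of_dvd hN h) (not_le.2 hlN')
  have h1 : ∀ i, ∃ a : (K →+* E) → ℕ, ∀ x : 𝓞 K, InRay N x →
      (∀ σ, em σ x ∉ lam.asIdeal) → χ i (Ideal.span {x}) = ∏ σ, φ (em σ x) ^ a σ := by
    intro i
    refine hB lam hprime (by rw [hle]; exact hlB) N hN (by rw [hle]; exact hlN) k φ hφ (χ i) ?_
    rw [hle]
    exact hray i
  choose a ha using h1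
  set kb := AlgebraicClosure k with hkb
  set ι : k →+* kb := algebraMap k kb with hι
  obtain ⟨ψ, hψ⟩ := Pool.Agent.Y800.extend j (ι.comp φ)
  have hψ' : ψ.comp (jz j) = ι.comp φ := RingHom.ext hψ
  refine ⟨⟨kb, ψ, l, fun i => ι.toMonoidWithZeroHom.comp (χ i), a, ?_, hl, hle, hlN, ?_, ?_, ?_⟩⟩
  · rw [hψ', ← hφ]
    ext x
    rw [RingHom.mem_ker, RingHom.mem_ker, RingHom.comp_apply]
    exact map_eq_zero_iff ι ι.injective
  · intro i
    refine ⟨fun 𝔞 h𝔞 => ?_, fun x hx => ?_⟩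
    · rw [← (hray i).supp 𝔞 h𝔞]
      show ι (χ i 𝔞) ≠ 0 ↔ _
      rw [Ne, map_eq_zero_iff ι ι.injective]
    · show ι (χ i _) = 1
      rw [(hray i).ray x hx, map_one]
  · intro i x hx hσ
    show ι (χ i _) = _
    rw [ha i x hx hσ, map_prod]
    refine Finset.prod_congr rfl fun σ _ => ?_
    rw [map_pow]
    congr 1
    exact (hψ _).symm
  · intro v hvN hvl
    have h2 := hP v hvN hvl
    have h3 := congrArg (Polynomial.map ι) h2
    rw [Polynomial.map_map, ← hψ', ← Polynomial.map_map, hα v hvN, Polynomial.map_prod,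
      Polynomial.map_prod] at h3
    simp only [Polynomial.map_sub, Polynomial.map_X, Polynomial.map_C] at h3
    have h4 : Finset.univ.val.map (fun i => ι (χ i v.asIdeal)) =
        Finset.univ.val.map (fun i => ψ (α v i)) := by
      have h5 := congrArg Polynomial.roots h3
      have e1 : ∏ i, (X - Polynomial.C (ψ (α v i))) =
          ((Finset.univ.val.map fun i => ψ (α v i)).map fun a => X - Polynomial.C a).prod := by
        rw [Multiset.map_map]
        rfl
      have e2 : ∏ i, (X - Polynomial.C (ι (χ i v.asIdeal))) =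
          ((Finset.univ.val.map fun i => ι (χ i v.asIdeal)).map
            fun a => X - Polynomial.C a).prod := by
        rw [Multiset.map_map]
        rfl
      rw [e1, e2, roots_multiset_prod_X_sub_C, roots_multiset_prod_X_sub_C] at h5
      exact h5.symm
    obtain ⟨π, hπ⟩ := Pool.Agent.H500.MW.exists_equiv (fun i => ι (χ i v.asIdeal))
      (fun i => ψ (α v i)) h4
    exact ⟨π, hπ⟩

end Loc

end Pool.Agent.H500.HC
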