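import Pool.Agent.H500.HC.Stm
import Pool.Agent.H500.MWF

set_option autoImplicit false
set_option linter.unusedSectionVars false

/-!
# Reduction of algebraic integers
-/

namespace Pool.Agent.H500.HC

open NumberField IsDedekindDomain Filter Topology Polynomial
open Pool.Agent.W401.Cheb (dens)

section mk

theorem mk_int {x : QBar} (hx : IsIntegral ℤ x) : ∃ z : ZBar, algebraMap ZBar QBar z = x :=
  ⟨⟨x, hx⟩, rfl⟩

theorem zq_inj : Function.Injective (algebraMap ZBar QBar) := RingOfIntegers.coe_injective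

end mk

section red

variable {k : Type} [Field k] (ψ : ZBar →+* k)

/-- a root of unity of order prime to the characteristic with reduction `1` -/
theorem root_one {z : ZBar} {m : ℕ} (hm : (m : k) ≠ 0) (hz : z ^ m = 1) (h : ψ z = 1) : z = 1 := by
  by_contra hne
  have h1 : (z - 1) * ∑ i ∈ Finset.range m, z ^ i = 0 := by
    rw [mul_geom_sum, hz, sub_self]
  rcases mul_eq_zero.1 h1 with h2 | h2
  · exact hne (sub_eq_zero.1 h2)
  · have h3 := congrArg ψ h2
    rw [map_sum, map_zero] at h3
    apply hm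
    rw [← h3]
    simp [h]

/-- the quotient of two elements with the same power -/
theorem exists_ratio {z z' : ZBar} {h : ℕ} (hh : 0 < h) (hz' : z' ≠ 0) (e : z ^ h = z' ^ h) :
    ∃ ζ : ZBar, ζ ^ h = 1 ∧ z = ζ * z' := by
  have hz0 : algebraMap ZBar QBar z' ≠ 0 := fun h0 => hz' (zq_inj (h0.trans (map_zero _).symm))
  have e' : (algebraMap ZBar QBar z) ^ h = (algebraMap ZBar QBar z') ^ h := by
    have := congrArg (algebraMap ZBar QBar) e
    rwa [map_pow, map_pow] at this
  have h1 : (algebraMap ZBar QBar z / algebraMap ZBar QBar z') ^ h = 1 := by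
    rw [div_pow, e', div_self (pow_ne_zero _ hz0)]
  obtain ⟨ζ, hζ⟩ := mk_int (x := algebraMap ZBar QBar z / algebraMap ZBar QBar z')
    (IsIntegral.of_pow hh (by rw [h1]; exact isIntegral_one))
  refine ⟨ζ, ?_, ?_⟩
  · apply zq_inj
    rw [map_pow, map_one, hζ, h1]
  · apply zq_inj
    rw [map_mul, hζ]
    field_simp

/-- uniqueness of roots with given reduction -/
theorem root_unique {z z' : ZBar} {h : ℕ} (hh : (h : k) ≠ 0) (e : z ^ h = z' ^ h)
    (hψ : ψ z = ψ z') (h0 : ψ z' ≠ 0) : z = z' := by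
  have hh0 : 0 < h := Nat.pos_of_ne_zero (by rintro rfl; exact hh (by simp))
  obtain ⟨ζ, hζ, hz⟩ := exists_ratio hh0 (by rintro rfl; exact h0 (map_zero ψ)) e
  have h1 : ψ ζ = 1 := by
    rw [hz, map_mul] at hψ
    exact mul_right_cancel₀ h0 (hψ.trans (one_mul _).symm)
  rw [hz, root_one ψ hh hζ h1, one_mul]

/-- monic polynomials over `ZBar` split -/
theorem zbar_split (f : ZBar[X]) (hf : f.Monic) :
    ∃ y : Fin f.natDegree → ZBar, f = ∏ t, (X - Polynomial.C (y t)) := by
  obtain ⟨y, hy⟩ := Pool.Agent.H500.MW.exists_roots (f.map (algebraMap ZBar QBar)) (hf.map _)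
  have hdeg : (f.map (algebraMap ZBar QBar)).natDegree = f.natDegree := hf.natDegree_map _
  have hint : ∀ t, IsIntegral ℤ (y t) := by
    intro t
    have h1 : IsIntegral ZBar (y t) := by
      refine ⟨f, hf, ?_⟩
      rw [eval₂_eq_eval_map]
      conv_lhs => rw [hy]
      rw [eval_prod]
      exact Finset.prod_eq_zero (Finset.mem_univ t) (by simp)
    exact isIntegral_trans _ h1
  choose y' hy' using fun t => mk_int (hint t)
  refine ⟨fun t => y' (Fin.cast hdeg.symm t), ?_⟩
  apply Polynomial.map_injective (algebraMap ZBar QBar) zq_inj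
  conv_lhs => rw [hy]
  rw [Polynomial.map_prod]
  refine Fintype.prod_equiv (finCongr hdeg) _ _ fun t => ?_
  rw [Polynomial.map_sub, Polynomial.map_X, Polynomial.map_C, hy']
  rfl

/-- roots can be lifted -/
theorem root_lift {w : ZBar} {h : ℕ} (hh : 0 < h) {x : k} (hx : x ^ h = ψ w) :
    ∃ z : ZBar, z ^ h = w ∧ ψ z = x := by
  obtain ⟨y, hy⟩ := zbar_split (X ^ h - Polynomial.C w) (monic_X_pow_sub_C w hh.ne')
  have h1 := congrArg (Polynomial.map ψ) hy
  rw [Polynomial.map_prod, Polynomial.map_sub, Polynomial.map_pow, Polynomial.map_X,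
    Polynomial.map_C] at h1
  have h2 := congrArg (Polynomial.eval x) h1
  rw [eval_sub, eval_pow, eval_X, eval_C, hx, sub_self, eval_prod] at h2
  obtain ⟨t, -, ht⟩ := Finset.prod_eq_zero_iff.1 h2.symm
  simp only [Polynomial.map_sub, Polynomial.map_X, Polynomial.map_C, eval_sub, eval_X, eval_C] at ht
  refine ⟨y t, ?_, (sub_eq_zero.1 ht).symm⟩
  have h3 := congrArg (Polynomial.eval (y t)) hy
  rw [eval_prod, Finset.prod_eq_zero (Finset.mem_univ t) (by simp)] at h3
  simp only [eval_sub, eval_pow, eval_X, eval_C] at h3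
  exact sub_eq_zero.1 h3

end red

section zero

variable {E : Type} [Field E] [NumberField E]

/-- a nonzero algebraic integer divides a nonzero integer -/
theorem dvd_int {z : ZBar} (hz : z ≠ 0) : ∃ b : ℤ, b ≠ 0 ∧ z ∣ (b : ZBar) := by
  have h1 : (Ideal.span {z}).comap (algebraMap ℤ ZBar) ≠ ⊥ :=
    Ideal.comap_ne_bot_of_integral_mem hz (Ideal.mem_span_singleton_self z)
      (Algebra.IsIntegral.isIntegral z)
  obtain ⟨b, hb, hb0⟩ := Submodule.exists_mem_ne_zero_of_ne_bot h1
  rw [Ideal.mem_comap, Ideal.mem_span_singleton] at hb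
  exact ⟨b, hb0, hb⟩

theorem eq_zero_of_inf (j : E →+* QBar) {z : ZBar} {S : Set (HeightOneSpectrum (𝓞 E))}
    (hS : S.Infinite)
    (h : ∀ lam ∈ S, ∃ (k : Type) (_ : Field k) (ψ : ZBar →+* k),
      RingHom.ker (ψ.comp (RingOfIntegers.mapRingHom j)) = lam.asIdeal ∧ ψ z = 0) : z = 0 := by
  by_contra hz
  obtain ⟨b, hb, w, hw⟩ := dvd_int hz
  have hb' : (b : 𝓞 E) ≠ 0 := Int.cast_ne_zero.2 hb
  refine hS ((Pool.Agent.H500.Kum.fin_mem hb').subset ?_)
  intro lam hlam
  obtain ⟨k, _, ψ, hker, hψ⟩ := h lam hlam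
  show (b : 𝓞 E) ∈ lam.asIdeal
  rw [← hker, RingHom.mem_ker, map_intCast, ← map_intCast ψ, hw, map_mul, hψ, zero_mul]

end zero

section deg

variable {E : Type} [Field E] [NumberField E]

/-- adjoining a root -/
theorem deg_adj (j : E →+* QBar) (f : E[X]) (hf : f ≠ 0) {α : QBar} (hα : (f.map j).eval α = 0) :
    ∃ (F : Type) (_ : Field F) (_ : NumberField F) (i : F →+* QBar) (e : E →+* F),
      Module.finrank ℚ F ≤ f.natDegree * Module.finrank ℚ E ∧ i.comp e = j ∧ ∃ a, i a = α := by
  classical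
  let _ : Algebra E QBar := j.toAlgebra
  have hroot : aeval α f = 0 := by
    rw [aeval_def, eval₂_eq_eval_map]
    exact hα
  have hint : IsIntegral E α := IsAlgebraic.isIntegral ⟨f, hf, hroot⟩
  set F : IntermediateField E QBar := IntermediateField.adjoin E ({α} : Set QBar) with hF
  have hfd : FiniteDimensional E F := IntermediateField.adjoin.finiteDimensional hint
  have hnf : NumberField F := NumberField.of_module_finite E F
  have hαF : α ∈ F := IntermediateField.mem_adjoin_simple_self _ _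
  refine ⟨F, inferInstance, hnf, F.val.toRingHom, algebraMap E F, ?_, rfl, ⟨α, hαF⟩, rfl⟩
  have h2 : Module.finrank ℚ E * Module.finrank E F = Module.finrank ℚ F :=
    Module.finrank_mul_finrank ℚ E F
  rw [← h2, mul_comm]
  refine Nat.mul_le_mul_right _ ?_
  have h3 : Module.finrank E F = (minpoly E α).natDegree :=
    IntermediateField.adjoin.finrank hint
  rw [h3]
  exact natDegree_le_of_dvd (minpoly.dvd _ _ hroot) hf

/-- the degree of an element of a number field -/
theorem deg_el {F : Type} [Field F] [NumberField F] (i : F →+* QBar) (a : F) :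
    (minpoly ℚ (i a)).natDegree ≤ Module.finrank ℚ F := by
  let _ : Algebra F QBar := i.toAlgebra
  have h1 : minpoly ℚ (i a) = minpoly ℚ a :=
    minpoly.algebraMap_eq (A := ℚ) (B := F) (B' := QBar) (algebraMap F QBar).injective a
  rw [h1]
  exact minpoly.natDegree_le _

/-- quotients of two roots -/
theorem deg_quot (j : E →+* QBar) (f : E[X]) (hf : f ≠ 0) {α β : QBar}
    (hα : (f.map j).eval α = 0) (hβ : (f.map j).eval β = 0) :
    (minpoly ℚ (β / α)).natDegree ≤ f.natDegree * (f.natDegree * Module.finrank ℚ E) := by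
  obtain ⟨F, _, _, i, e, h1, h2, a, ha⟩ := deg_adj j f hf hα
  have hβ' : ((f.map e).map i).eval β = 0 := by
    rw [Polynomial.map_map, h2]
    exact hβ
  obtain ⟨F', _, _, i', e', h1', h2', b, hb⟩ :=
    deg_adj i (f.map e) ((Polynomial.map_ne_zero_iff e.injective).2 hf) hβ'
  have h3 : i' (b / e' a) = β / α := by
    rw [map_div₀, hb]
    congr 1
    rw [← ha, ← h2']
    rfl
  rw [← h3]
  refine (deg_el i' _).trans (h1'.trans ?_)
  rw [Polynomial.natDegree_map]
  exact Nat.mul_le_mul_left _ h1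

end deg

section ru

/-- a root of unity of small degree with reduction `1` -/
theorem ru_one {k : Type} [Field k] (ψ : ZBar →+* k) {l : ℕ} (hl : l.Prime) (hlk : (l : k) = 0)
    {d : ℕ} (hd : 2 * d < l) {z : ZBar} (hz : (minpoly ℚ (z : QBar)).natDegree ≤ d) {m : ℕ}
    (hm : 0 < m) (h1 : z ^ m = 1) (h : ψ z = 1) : z = 1 := by
  have h2 : (z : QBar) ^ m = 1 := by
    have := congrArg (algebraMap ZBar QBar) h1
    rwa [map_pow, map_one] at this
  have h3 := Pool.Agent.H500.MW.order_dvd hz hm h2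
  have h4 : z ^ (2 * d).factorial = 1 := by
    apply RingOfIntegers.coe_injective
    show algebraMap ZBar QBar _ = algebraMap ZBar QBar _
    rw [map_pow, map_one]
    exact h3
  refine root_one ψ (m := (2 * d).factorial) ?_ h4 h
  intro h5
  have : CharP k l := by
    obtain ⟨p, hp⟩ := CharP.exists k
    have h6 : p ∣ l := (CharP.cast_eq_zero_iff k p l).1 hlk
    rcases (Nat.dvd_prime hl).1 h6 with h7 | h7
    · subst h7
      exact absurd (CharP.cast_eq_zero k 1) (by rw [Nat.cast_one]; exact one_ne_zero)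
    · rwa [h7] at hp
  rw [CharP.cast_eq_zero_iff k l, hl.dvd_factorial] at h5
  omega

end ru

end Pool.Agent.H500.HC
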