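import Pool.Agent.H500.MWA
import Pool.Agent.H500.KumI

set_option autoImplicit false
set_option linter.unusedSectionVars false

/-!
# Project HC (helper500): families which are abelian modulo many places come from Hecke characters

## The theorem

`K`, `E` are number fields with `#Hom(K, E) = [K : ℚ]` (`E` contains the Galois closure of `K`),
`N ≥ 2`, `P v` (`v` a prime of `K` not dividing `N`) are polynomials of degree `n` over `𝓞_E`.  For a set
of places `lam` of `E` of positive upper density the `P v` are, modulo `lam`, `∏ (X - χ_i(v))` for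
ray class characters `χ_1, …, χ_n` (values in a field of characteristic `l`) of conductor dividing
`N l` (by class field theory: the abelian Galois representations of `K` modulo `lam`, with bounded
conductor outside `l`).  Then there are algebraic Hecke characters `ψ_1, …, ψ_n` of `K` of
conductor dividing a power of `N`, with `P v = ∏ (X - ψ_i(v))` for all `v ∤ N`.

## Plan of the proof

1. `S_Exp`: for `lam` of degree one, `x ≡ 1 mod N` totally positive: `χ_i((x)) = ∏_σ σ(x)^{a_σ} mod lam`.
2. `S_KD` (Kummer theory, Chebotarev): the exponents `a_σ` are constant rational numbers: types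
   `t_{iσ} ∈ ℚ` with `α_{v,i}^{hm} = ∏_σ σ(x_v)^{m t_{iσ}}`, `v^h = (x_v)`.
3. `t_{iσ} ∈ ℕ`: look at a prime `v` of `K` below a prime `(y)` of `E`, `y ≡ 1 mod N l`: `P v ≡ (X-1)^n`
   modulo `lam`, hence the conjugates of `α_{v,i}` over `E` are congruent and differ by roots of unity.
4. Two places `lam`, `lam'`: for `v = (y)`, `y ≡ 1 mod N l'`, the roots of `P v` are `∏ σ(y)^{t_{iσ}}`; so the
   restrictions of the `χ_i` to the principal ideals are the characters of type `t_i`; the quotients
   are characters of a fixed finite group.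
5. Hecke's continuation of the L-functions.
-/

namespace Pool.Agent.H500.HC

open NumberField IsDedekindDomain Filter Topology Polynomial
open Pool.Agent.W401.Cheb (dens)

/-- the algebraic closure of `ℚ` -/
abbrev QBar : Type := AlgebraicClosure ℚ

/-- the ring of all algebraic integers -/
abbrev ZBar : Type := 𝓞 (AlgebraicClosure ℚ)

section
variable {K : Type} [Field K] [NumberField K]

/-- `x` is totally positive -/
def TotPos (x : 𝓞 K) : Prop := ∀ τ : K →+* ℝ, 0 < τ (x : K)

/-- `x` is in the ray modulo `N`: `x ≠ 0`, `x ≡ 1 mod N` and `x` is totally positive -/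
def InRay (N : ℕ) (x : 𝓞 K) : Prop := x ≠ 0 ∧ (N : 𝓞 K) ∣ x - 1 ∧ TotPos x

/-- `χ` is a ray class character modulo `N` of the ideals, with values in a field `k`, zero at the
ideals which are not prime to `N` -/
structure IsRayChar {k : Type} [Field k] (N : ℕ) (χ : Ideal (𝓞 K) →*₀ k) : Prop where
  supp : ∀ 𝔞 : Ideal (𝓞 K), 𝔞 ≠ ⊥ → (χ 𝔞 ≠ 0 ↔ IsCoprime 𝔞 (Ideal.span {(N : 𝓞 K)}))
  ray : ∀ x : 𝓞 K, InRay N x → χ (Ideal.span {x}) = 1

variable {E : Type} [Field E] [NumberField E]

/-- `σ(x)` -/
noncomputable abbrev em (σ : K →+* E) (x : 𝓞 K) : 𝓞 E := RingOfIntegers.mapRingHom σ x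

/-- `∏_σ σ(x)^{t_σ}` -/
noncomputable def typ (t : (K →+* E) → ℕ) (x : 𝓞 K) : 𝓞 E := ∏ σ, em σ x ^ t σ

/-- the polynomials `P v` are matched modulo `lam` by `n` ray class characters of conductor
dividing `N l`, `l` the residue characteristic of `lam` -/
def AbRes (N n : ℕ) (P : HeightOneSpectrum (𝓞 K) → (𝓞 E)[X]) (lam : HeightOneSpectrum (𝓞 E)) :
    Prop :=
  ∃ (k : Type) (_ : Field k) (φ : 𝓞 E →+* k) (l : ℕ) (χ : Fin n → Ideal (𝓞 K) →*₀ k),
    RingHom.ker φ = lam.asIdeal ∧ l.Prime ∧ (l : 𝓞 E) ∈ lam.asIdeal ∧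
    (∀ i, IsRayChar (N * l) (χ i)) ∧
    ∀ v : HeightOneSpectrum (𝓞 K), (N : 𝓞 K) ∉ v.asIdeal → (l : 𝓞 K) ∉ v.asIdeal →
      (P v).map φ = ∏ i, (X - Polynomial.C (χ i v.asIdeal))

end

end Pool.Agent.H500.HC
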